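import Pool.Agent.H21.TB.Def

open scoped ENNReal BigOperators

namespace Pool.Agent.H21.TB

variable {n : ℕ}

/-- average of `f` after one step -/
noncomputable def av (f : (Fin n → ℤ) → ℝ) (s : Fin n → ℤ) : ℝ :=
  (∑ ω : Draw n, f (step s ω)) / (2 * (n : ℝ) ^ 3)

lemma stat_tsum {π : PMF (Fin n → ℤ)} (h : IsStationary π) (f : (Fin n → ℤ) → ℝ≥0∞) :
    ∑' s, π s * f s = ∑' s, π s * ((∑ ω : Draw n, f (step s ω)) / (2 * (n : ℝ≥0∞) ^ 3)) := by
  have h1 : ∀ s : Fin n → ℤ, ∑' s', trans s s' * f s'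
      = (∑ ω : Draw n, f (step s ω)) / (2 * (n : ℝ≥0∞) ^ 3) := by
    intro s
    have h2 : ∀ s', trans s s' * f s'
        = ∑ ω : Draw n, (if step s ω = s' then f s' / (2 * (n : ℝ≥0∞) ^ 3) else 0) := by
      intro s'
      rw [trans, ← Finset.sum_filter, Finset.sum_const, nsmul_eq_mul]
      simp only [div_eq_mul_inv]
      ring
    simp only [h2]
    rw [Summable.tsum_finsetSum (fun _ _ => ENNReal.summable)]
    rw [div_eq_mul_inv, Finset.sum_mul]
    refine Finset.sum_congr rfl fun ω _ => ?_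
    rw [tsum_eq_single (step s ω)]
    · simp [div_eq_mul_inv]
    · intro b hb
      rw [if_neg (fun hh => hb hh.symm)]
  calc ∑' s', π s' * f s' = ∑' s', (∑' s, π s * trans s s') * f s' := by
        refine tsum_congr fun s' => ?_
        rw [← h.2 s']
    _ = ∑' s', ∑' s, π s * trans s s' * f s' := by
        refine tsum_congr fun s' => ?_
        rw [ENNReal.tsum_mul_right]
    _ = ∑' s, ∑' s', π s * trans s s' * f s' := ENNReal.tsum_comm
    _ = ∑' s, π s * ∑' s', trans s s' * f s' := by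
        refine tsum_congr fun s => ?_
        rw [← ENNReal.tsum_mul_left]
        refine tsum_congr fun s' => ?_
        rw [mul_assoc]
    _ = _ := by
        refine tsum_congr fun s => ?_
        rw [h1 s]

lemma ofReal_av (hn : 0 < n) (f : (Fin n → ℤ) → ℝ) (hf : ∀ s, 0 ≤ f s) (s : Fin n → ℤ) :
    ENNReal.ofReal (av f s)
      = (∑ ω : Draw n, ENNReal.ofReal (f (step s ω))) / (2 * (n : ℝ≥0∞) ^ 3) := by
  have hn' : (0 : ℝ) < n := by exact_mod_cast hn
  rw [av, ENNReal.ofReal_div_of_pos (by positivity), ENNReal.ofReal_sum_of_nonneg (fun ω _ => hf _)]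
  congr 1
  rw [ENNReal.ofReal_mul (by norm_num), ENNReal.ofReal_pow (by positivity)]
  simp

/-- Drift lemma: a pointwise drift inequality integrates against the stationary law. -/
lemma drift {π : PMF (Fin n → ℤ)} (h : IsStationary π) (hn : 0 < n)
    (f a b : (Fin n → ℤ) → ℝ) (B : ℝ) (hf : ∀ s, 0 ≤ f s) (hfB : ∀ s, f s ≤ B)
    (ha : ∀ s, 0 ≤ a s) (hb : ∀ s, 0 ≤ b s)
    (hd : ∀ s, ∑ k, s k = 0 → av f s + a s ≤ f s + b s) :
    ∑' s, π s * ENNReal.ofReal (a s) ≤ ∑' s, π s * ENNReal.ofReal (b s) := by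
  have hn' : (0 : ℝ) < n := by exact_mod_cast hn
  have h1 : ∑' s, π s * ENNReal.ofReal (f s) = ∑' s, π s * ENNReal.ofReal (av f s) := by
    rw [stat_tsum h]
    refine tsum_congr fun s => ?_
    rw [ofReal_av hn f hf]
  have hav : ∀ s, 0 ≤ av f s := fun s => by
    unfold av
    exact div_nonneg (Finset.sum_nonneg fun ω _ => hf _) (by positivity)
  have h2 : ∑' s, π s * ENNReal.ofReal (av f s) + ∑' s, π s * ENNReal.ofReal (a s)
      ≤ ∑' s, π s * ENNReal.ofReal (f s) + ∑' s, π s * ENNReal.ofReal (b s) := by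
    rw [← ENNReal.tsum_add, ← ENNReal.tsum_add]
    refine ENNReal.tsum_le_tsum fun s => ?_
    by_cases hs : π s = 0
    · simp [hs]
    · rw [← mul_add, ← mul_add, ← ENNReal.ofReal_add (hav s) (ha s),
        ← ENNReal.ofReal_add (hf s) (hb s)]
      exact mul_le_mul' le_rfl (ENNReal.ofReal_le_ofReal (hd s (h.1 s hs)))
  rw [← h1] at h2
  have h3 : ∑' s, π s * ENNReal.ofReal (f s) ≠ ⊤ := by
    have : ∑' s, π s * ENNReal.ofReal (f s) ≤ ENNReal.ofReal B := by
      calc ∑' s, π s * ENNReal.ofReal (f s) ≤ ∑' s, π s * ENNReal.ofReal B :=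
            ENNReal.tsum_le_tsum fun s => by gcongr; exact hfB s
        _ = ENNReal.ofReal B := by
            rw [ENNReal.tsum_mul_right, π.tsum_coe, one_mul]
    exact ne_top_of_le_ne_top ENNReal.ofReal_ne_top this
  exact (ENNReal.add_le_add_iff_left h3).1 h2

/-- Positivity propagates along steps. -/
lemma pos_step {π : PMF (Fin n → ℤ)} (h : IsStationary π) (s : Fin n → ℤ) (hs : π s ≠ 0)
    (ω : Draw n) : π (step s ω) ≠ 0 := by
  intro h0
  rw [h.2 (step s ω)] at h0
  rw [ENNReal.tsum_eq_zero] at h0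
  have h1 := h0 s
  rw [mul_eq_zero] at h1
  rcases h1 with h1 | h1
  · exact hs h1
  · rw [trans, ENNReal.div_eq_zero_iff] at h1
    rcases h1 with h1 | h1
    · have h2 : (Finset.univ.filter (fun ω' : Draw n => step s ω' = step s ω)).card = 0 := by
        exact_mod_cast h1
      rw [Finset.card_eq_zero] at h2
      have h3 : ω ∈ (Finset.univ.filter (fun ω' : Draw n => step s ω' = step s ω)) := by simp
      rw [h2] at h3
      simp at h3
    · exact ENNReal.mul_ne_top (by norm_num) (ENNReal.pow_ne_top (ENNReal.natCast_ne_top n)) h1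

end Pool.Agent.H21.TB
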