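import Pool.Agent.H21.TB.Basic

open scoped ENNReal BigOperators

namespace Pool.Agent.H21.TB

variable {n : ℕ}

lemma sum_draw (G : Fin n → ℝ) (H : Fin n → Fin n → ℝ) :
    ∑ ω : Draw n, G ω.1 * H ω.2.1 ω.2.2.1 = 2 * (∑ i, G i) * (∑ j, ∑ k, H j k) := by
  rw [Fintype.sum_prod_type]
  simp only [Fintype.sum_prod_type, Fintype.sum_bool]
  rw [mul_assoc, Finset.sum_mul, Finset.mul_sum]
  refine Finset.sum_congr rfl fun i _ => ?_
  rw [Finset.mul_sum, Finset.mul_sum]
  refine Finset.sum_congr rfl fun j _ => ?_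
  rw [Finset.mul_sum, Finset.mul_sum]
  refine Finset.sum_congr rfl fun k _ => ?_
  ring

lemma provider_mem (s : Fin n → ℤ) (j k : Fin n) (c : Bool) :
    provider s j k c = j ∨ provider s j k c = k := by
  unfold provider
  split_ifs <;> simp

lemma sum_one_sub (i : Fin n) : ∑ j : Fin n, (if j = i then (0 : ℝ) else 1) = n - 1 := by
  have h1 : ∀ j : Fin n, (if j = i then (0 : ℝ) else 1) = 1 - (if j = i then 1 else 0) := by
    intro j; split_ifs <;> norm_num
  simp only [h1]
  rw [Finset.sum_sub_distrib]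
  simp

lemma sum_ind (i : Fin n) : ∑ j : Fin n, (if j = i then (1 : ℝ) else 0) = 1 := by
  simp

lemma sum_prod_ind (i : Fin n) :
    ∑ j : Fin n, ∑ k : Fin n, (if j = i then (0 : ℝ) else 1) * (if k = i then (0 : ℝ) else 1)
      = (n - 1) * (n - 1) := by
  have h1 : ∀ j : Fin n, ∑ k : Fin n, (if j = i then (0 : ℝ) else 1) * (if k = i then (0 : ℝ) else 1)
      = (if j = i then (0 : ℝ) else 1) * (n - 1) := by
    intro j
    rw [← Finset.mul_sum, sum_one_sub]
  simp only [h1]
  rw [← Finset.sum_mul, sum_one_sub]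

lemma step_apply (s : Fin n → ℤ) (ω : Draw n) (i : Fin n) :
    step s ω i = s i - (if i = ω.1 then 1 else 0)
      + (if i = provider s ω.2.1 ω.2.2.1 ω.2.2.2 then 1 else 0) := rfl

lemma card_draw : ((Finset.univ : Finset (Draw n)).card : ℝ) = 2 * (n : ℝ) ^ 3 := by
  rw [Finset.card_univ]
  simp only [Fintype.card_prod, Fintype.card_fin, Fintype.card_bool]
  push_cast
  ring

lemma cut_pointwise (hn : 0 < n) (i : Fin n) (h : ℤ) (s : Fin n → ℤ) :
    av (fun s => if h ≤ s i then (1 : ℝ) else 0) s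
        + (if s i = h then ((n : ℝ) - 1) ^ 2 / (n : ℝ) ^ 3 else 0)
      ≤ (if h ≤ s i then (1 : ℝ) else 0)
        + (if s i = h - 1 then ((n : ℝ) - 1) * (2 * n - 1) / (n : ℝ) ^ 3 else 0) := by
  have hn' : (0 : ℝ) < n := by exact_mod_cast hn
  have hn1 : (1 : ℝ) ≤ n := by exact_mod_cast hn
  have h3 : (0 : ℝ) < 2 * (n : ℝ) ^ 3 := by positivity
  unfold av
  rcases lt_trichotomy (s i) h with hlt | heq | hgt
  · rw [if_neg hlt.ne, if_neg (not_le.2 hlt)]
    by_cases h1 : s i = h - 1
    · rw [if_pos h1]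
      have hb : ∑ ω : Draw n, (if h ≤ step s ω i then (1 : ℝ) else 0)
          ≤ ∑ ω : Draw n, (if ω.1 = i then (0 : ℝ) else 1)
            * (1 - (if ω.2.1 = i then (0 : ℝ) else 1) * (if ω.2.2.1 = i then (0 : ℝ) else 1)) := by
        refine Finset.sum_le_sum fun ω _ => ?_
        have hp := provider_mem s ω.2.1 ω.2.2.1 ω.2.2.2
        rw [step_apply, h1]
        by_cases hi : ω.1 = i
        · rw [if_pos hi.symm, if_pos hi]
          have : ¬ (h ≤ h - 1 - 1 + (if i = provider s ω.2.1 ω.2.2.1 ω.2.2.2 then (1:ℤ) else 0)) := by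
            split_ifs <;> omega
          rw [if_neg this]
          simp
        · rw [if_neg (fun hh : i = ω.1 => hi hh.symm), if_neg hi]
          by_cases hj : ω.2.1 = i
          · rw [if_pos hj]
            split_ifs <;> norm_num
          · by_cases hk : ω.2.2.1 = i
            · rw [if_pos hk]
              split_ifs <;> norm_num
            · have hpi : ¬ i = provider s ω.2.1 ω.2.2.1 ω.2.2.2 := by
                intro hh
                rcases hp with hp | hp
                · exact hj (by rw [hh, hp])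
                · exact hk (by rw [hh, hp])
              rw [if_neg hpi, if_neg (by omega : ¬ h ≤ h - 1 - 0 + 0), if_neg hj, if_neg hk]
              norm_num
      have hs : ∑ ω : Draw n, (if ω.1 = i then (0 : ℝ) else 1)
            * (1 - (if ω.2.1 = i then (0 : ℝ) else 1) * (if ω.2.2.1 = i then (0 : ℝ) else 1))
          = 2 * (n - 1) * (n * n - (n - 1) * (n - 1)) := by
        rw [sum_draw (fun a => if a = i then (0 : ℝ) else 1)
          (fun j k => 1 - (if j = i then (0 : ℝ) else 1) * (if k = i then (0 : ℝ) else 1))]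
        rw [sum_one_sub]
        congr 1
        simp only [Finset.sum_sub_distrib]
        rw [sum_prod_ind]
        simp
      rw [hs] at hb
      rw [add_zero, zero_add, div_le_div_iff₀ h3 (by positivity)]
      have : (∑ ω : Draw n, (if h ≤ step s ω i then (1 : ℝ) else 0)) * (n : ℝ) ^ 3
          ≤ (2 * (n - 1) * (n * n - (n - 1) * (n - 1))) * (n : ℝ) ^ 3 := by gcongr
      refine this.trans (le_of_eq ?_)
      ring
    · rw [if_neg h1]
      have : ∑ ω : Draw n, (if h ≤ step s ω i then (1 : ℝ) else 0) = 0 := by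
        refine Finset.sum_eq_zero fun ω _ => ?_
        rw [if_neg]
        rw [step_apply]
        split_ifs <;> omega
      rw [this]
      simp
  · rw [if_pos heq, if_pos heq.ge, if_neg (by omega)]
    have hb : ∑ ω : Draw n, (if h ≤ step s ω i then (1 : ℝ) else 0)
        ≤ ∑ ω : Draw n, (1 - (if ω.1 = i then (1 : ℝ) else 0)
          * ((if ω.2.1 = i then (0 : ℝ) else 1) * (if ω.2.2.1 = i then (0 : ℝ) else 1))) := by
      refine Finset.sum_le_sum fun ω _ => ?_
      have hp := provider_mem s ω.2.1 ω.2.2.1 ω.2.2.2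
      rw [step_apply, heq]
      by_cases hi : ω.1 = i
      · rw [if_pos hi.symm, if_pos hi]
        by_cases hj : ω.2.1 = i
        · rw [if_pos hj]
          split_ifs <;> norm_num
        · by_cases hk : ω.2.2.1 = i
          · rw [if_pos hk]
            split_ifs <;> norm_num
          · have hpi : ¬ i = provider s ω.2.1 ω.2.2.1 ω.2.2.2 := by
              intro hh
              rcases hp with hp | hp
              · exact hj (by rw [hh, hp])
              · exact hk (by rw [hh, hp])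
            rw [if_neg hpi, if_neg (by omega : ¬ h ≤ h - 1 + 0), if_neg hj, if_neg hk]
            norm_num
      · rw [if_neg hi]
        split_ifs <;> norm_num
    have hs : ∑ ω : Draw n, (1 - (if ω.1 = i then (1 : ℝ) else 0)
          * ((if ω.2.1 = i then (0 : ℝ) else 1) * (if ω.2.2.1 = i then (0 : ℝ) else 1)))
        = 2 * (n : ℝ) ^ 3 - 2 * ((n - 1) * (n - 1)) := by
      rw [Finset.sum_sub_distrib]
      rw [sum_draw (fun a => if a = i then (1 : ℝ) else 0)
        (fun j k => (if j = i then (0 : ℝ) else 1) * (if k = i then (0 : ℝ) else 1))]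
      rw [sum_ind, sum_prod_ind, Finset.sum_const, nsmul_eq_mul, card_draw]
      ring
    rw [hs] at hb
    have h4 : (∑ ω : Draw n, (if h ≤ step s ω i then (1 : ℝ) else 0)) / (2 * (n : ℝ) ^ 3)
        ≤ (2 * (n : ℝ) ^ 3 - 2 * ((n - 1) * (n - 1))) / (2 * (n : ℝ) ^ 3) := by gcongr
    have h5 : (2 * (n : ℝ) ^ 3 - 2 * ((n - 1) * (n - 1))) / (2 * (n : ℝ) ^ 3)
        = 1 - ((n : ℝ) - 1) ^ 2 / (n : ℝ) ^ 3 := by
      field_simp
    rw [h5] at h4
    linarith
  · rw [if_neg hgt.ne', if_pos hgt.le, if_neg (by omega)]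
    have hb : ∑ ω : Draw n, (if h ≤ step s ω i then (1 : ℝ) else 0)
        ≤ ∑ ω : Draw n, (1 : ℝ) := by
      refine Finset.sum_le_sum fun ω _ => ?_
      split_ifs <;> norm_num
    rw [Finset.sum_const, nsmul_eq_mul, card_draw, mul_one] at hb
    rw [add_zero, add_zero, div_le_one h3]
    exact hb

/-- The probability that agent `i` has balance exactly `h`. -/
noncomputable def pr (π : PMF (Fin n → ℤ)) (i : Fin n) (h : ℤ) : ℝ :=
  (∑' s : Fin n → ℤ, if s i = h then π s else 0).toReal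

lemma tsum_ite_le_one (π : PMF (Fin n → ℤ)) (P : (Fin n → ℤ) → Prop) [DecidablePred P] :
    ∑' s : Fin n → ℤ, (if P s then π s else 0) ≤ 1 := by
  rw [← π.tsum_coe]
  refine ENNReal.tsum_le_tsum fun s => ?_
  split_ifs <;> simp

lemma tsum_ite_ne_top (π : PMF (Fin n → ℤ)) (P : (Fin n → ℤ) → Prop) [DecidablePred P] :
    ∑' s : Fin n → ℤ, (if P s then π s else 0) ≠ ⊤ :=
  ne_top_of_le_ne_top ENNReal.one_ne_top (tsum_ite_le_one π P)

lemma tsum_mul_ite (π : PMF (Fin n → ℤ)) (P : (Fin n → ℤ) → Prop) [DecidablePred P] (D : ℝ) :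
    ∑' s, π s * ENNReal.ofReal (if P s then D else 0)
      = (∑' s : Fin n → ℤ, if P s then π s else 0) * ENNReal.ofReal D := by
  rw [← ENNReal.tsum_mul_right]
  refine tsum_congr fun s => ?_
  split_ifs <;> simp

/-- The cut inequality. -/
lemma cut {π : PMF (Fin n → ℤ)} (hπ : IsStationary π) (hn : 2 ≤ n) (i : Fin n) (h : ℤ) :
    ((n : ℝ) - 1) / (2 * n - 1) * pr π i h ≤ pr π i (h - 1) := by
  have hn0 : 0 < n := by omega
  have hn' : (2 : ℝ) ≤ n := by exact_mod_cast hn
  have hn3 : (0 : ℝ) < (n : ℝ) ^ 3 := by positivity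
  have hD : 0 ≤ ((n : ℝ) - 1) ^ 2 / (n : ℝ) ^ 3 := by positivity
  have hU : 0 ≤ ((n : ℝ) - 1) * (2 * n - 1) / (n : ℝ) ^ 3 := by
    apply div_nonneg _ hn3.le
    apply mul_nonneg <;> linarith
  have key := drift hπ hn0 (fun s => if h ≤ s i then (1 : ℝ) else 0)
    (fun s => if s i = h then ((n : ℝ) - 1) ^ 2 / (n : ℝ) ^ 3 else 0)
    (fun s => if s i = h - 1 then ((n : ℝ) - 1) * (2 * n - 1) / (n : ℝ) ^ 3 else 0) 1
    (fun s => by split_ifs <;> norm_num)
    (fun s => by split_ifs <;> norm_num)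
    (fun s => by split_ifs <;> [exact hD; exact le_rfl])
    (fun s => by split_ifs <;> [exact hU; exact le_rfl])
    (fun s _ => cut_pointwise hn0 i h s)
  rw [tsum_mul_ite, tsum_mul_ite] at key
  have key2 := ENNReal.toReal_mono
    (ENNReal.mul_ne_top (tsum_ite_ne_top π _) ENNReal.ofReal_ne_top) key
  rw [ENNReal.toReal_mul, ENNReal.toReal_mul, ENNReal.toReal_ofReal hD,
    ENNReal.toReal_ofReal hU] at key2
  change pr π i h * _ ≤ pr π i (h - 1) * _ at key2
  have h1 : 0 < (n : ℝ) - 1 := by linarith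
  have h2 : 0 < 2 * (n : ℝ) - 1 := by linarith
  have key3 : pr π i h * (((n : ℝ) - 1) ^ 2) ≤ pr π i (h - 1) * (((n : ℝ) - 1) * (2 * n - 1)) := by
    have := mul_le_mul_of_nonneg_right key2 hn3.le
    have e1 : pr π i h * (((n : ℝ) - 1) ^ 2 / (n : ℝ) ^ 3) * (n : ℝ) ^ 3
        = pr π i h * (((n : ℝ) - 1) ^ 2) := by field_simp
    have e2 : pr π i (h - 1) * (((n : ℝ) - 1) * (2 * n - 1) / (n : ℝ) ^ 3) * (n : ℝ) ^ 3
        = pr π i (h - 1) * (((n : ℝ) - 1) * (2 * n - 1)) := by field_simp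
    rw [e1, e2] at this
    exact this
  rw [div_mul_eq_mul_div, div_le_iff₀ h2]
  have : ((n : ℝ) - 1) * (((n : ℝ) - 1) * pr π i h) ≤ ((n : ℝ) - 1) * (pr π i (h - 1) * (2 * n - 1)) := by
    nlinarith [key3]
  exact le_of_mul_le_mul_left this h1

end Pool.Agent.H21.TB
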