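import Mathlib

/-!
# The token chain with two available agents and minimum-token provider

Definitions for problem MP_b658b3_pr.
-/

open scoped ENNReal

namespace Pool.Agent.H21.TB

variable {n : ℕ}

/-- The provider chosen from the two available agents `j₁`, `j₂`: the one that holds fewer
tokens; a tie is broken by the fair coin `c`. -/
def provider (s : Fin n → ℤ) (j₁ j₂ : Fin n) (c : Bool) : Fin n :=
  if s j₁ < s j₂ then j₁ else if s j₂ < s j₁ then j₂ else if c then j₁ else j₂

/-- The randomness of one step: requester, two available agents, tie-breaking coin. -/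
abbrev Draw (n : ℕ) : Type := Fin n × Fin n × Fin n × Bool

/-- One step of the chain: the requester pays one token to the provider. -/
def step (s : Fin n → ℤ) (ω : Draw n) : Fin n → ℤ :=
  fun k => s k - (if k = ω.1 then 1 else 0)
    + (if k = provider s ω.2.1 ω.2.2.1 ω.2.2.2 then 1 else 0)

/-- The transition probability: the number of the `2 n ^ 3` equally likely draws that lead
from `s` to `s'`, divided by `2 n ^ 3`. -/
noncomputable def trans (s s' : Fin n → ℤ) : ℝ≥0∞ :=
  ((Finset.univ.filter (fun ω : Draw n => step s ω = s')).card : ℝ≥0∞)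
    / (2 * (n : ℝ≥0∞) ^ 3)

/-- `π` is a stationary distribution of the chain on token vectors with sum `0`. -/
def IsStationary (π : PMF (Fin n → ℤ)) : Prop :=
  (∀ s, π s ≠ 0 → ∑ k, s k = 0) ∧ ∀ s', π s' = ∑' s, π s * trans s s'

/-- The probability under `π` that the balance of agent `i` is at most `M` in absolute value. -/
noncomputable def balProb (π : PMF (Fin n → ℤ)) (i : Fin n) (M : ℕ) : ℝ :=
  (∑' s : Fin n → ℤ, if |s i| ≤ (M : ℤ) then π s else 0).toReal

end Pool.Agent.H21.TB
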