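import Pool.Agent.H21.TB.Lyap

open scoped ENNReal BigOperators

namespace Pool.Agent.H21.TB

variable {n : ℕ}

lemma near_max {a c : ℝ} (ha : 0 < a) (hc : 0 < c) (s : Fin n → ℤ) (v K₀ : ℝ) (hK : 0 ≤ K₀)
    (hv : ∀ B : Finset (Fin n), -(SA B s) / beta n a c B.card ≤ v)
    (A : Finset (Fin n)) (hA : v - K₀ ≤ -(SA A s) / beta n a c A.card)
    (hbig : K₀ * (a + c * n * n) < c * v) :
    ∀ x ∈ A, ∀ y, y ∉ A → s x < s y := by
  intro x hx y hy
  have hβ : ∀ B : Finset (Fin n), 0 < beta n a c B.card := fun B =>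
    lt_of_lt_of_le ha (beta_ge hc.le (card_le_n B))
  have hm1 : 0 < A.card := Finset.card_pos.2 ⟨x, hx⟩
  obtain ⟨m, hm⟩ : ∃ m, A.card = m + 1 := ⟨A.card - 1, by omega⟩
  have e1 : (A.erase x).card = m := by rw [Finset.card_erase_of_mem hx, hm]; rfl
  have e2 : (insert y A).card = m + 2 := by rw [Finset.card_insert_of_notMem hy, hm]
  have h1 := hv (A.erase x)
  have h2 := hv (insert y A)
  rw [div_le_iff₀ (hβ _), e1] at h1
  rw [div_le_iff₀ (hβ _), e2] at h2
  rw [le_div_iff₀ (hβ _), hm] at hA
  have s1 : SA (A.erase x) s = SA A s - s x := by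
    unfold SA
    have := Finset.sum_erase_add A s hx
    rw [← this]
    push_cast
    ring
  have s2 : SA (insert y A) s = s y + SA A s := by
    unfold SA
    rw [Finset.sum_insert hy]
    push_cast
    ring
  rw [s1] at h1
  rw [s2] at h2
  have hb1 : beta n a c (m + 1) ≤ a + c * n * n := by
    rw [← hm]; exact beta_le hc.le (card_le_n A)
  have hb2 : K₀ * beta n a c (m + 1) ≤ K₀ * (a + c * n * n) := by gcongr
  have hsec : 2 * beta n a c (m + 1) - beta n a c m - beta n a c (m + 2) = 2 * c := by
    unfold beta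
    push_cast
    ring
  have hfin : (s x : ℝ) < s y := by
    have e3 : v * (2 * beta n a c (m + 1) - beta n a c m - beta n a c (m + 2)) = v * (2 * c) := by
      rw [hsec]
    nlinarith
  exact_mod_cast hfin

lemma av_sum {ι : Type} (t : Finset ι) (g : ι → (Fin n → ℤ) → ℝ) (s : Fin n → ℤ) :
    av (fun s => ∑ A ∈ t, g A s) s = ∑ A ∈ t, av (g A) s := by
  unfold av
  rw [Finset.sum_comm, Finset.sum_div]

lemma av_mono (f g : (Fin n → ℤ) → ℝ) (h : ∀ s, f s ≤ g s) (s : Fin n → ℤ) :
    av f s ≤ av g s := by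
  unfold av
  exact div_le_div_of_nonneg_right (Finset.sum_le_sum fun ω _ => h _) (by positivity)

lemma av_const (hn : 0 < n) (B : ℝ) (s : Fin n → ℤ) :
    av (fun _ => B) s = B := by
  have hn' : (0 : ℝ) < n := by exact_mod_cast hn
  unfold av
  rw [Finset.sum_const, nsmul_eq_mul, card_draw]
  field_simp

lemma VV_drift {a c κ : ℝ} (ha : 0 < a) (hc : 0 < c) (hn : 0 < n) (hκ : 0 < κ) (hκ1 : κ ≤ 1)
    (hF : ∀ m : ℕ, 0 < m → m < n →
      Fac n m (Real.exp (1 / beta n a c m)) ≤ 1 - κ) :
    ∃ C : ℝ, 0 ≤ C ∧ ∀ s : Fin n → ℤ, ∑ k, s k = 0 →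
      av (VV a c) s + κ / 2 * VV a c s ≤ VV a c s + C := by
  set Z := Real.exp (1 / a) with hZ
  have hZ1 : 1 ≤ Z := by apply Real.one_le_exp; positivity
  have hZ0 : 0 < Z := by linarith
  set N : ℝ := ((Finset.univ : Finset (Finset (Fin n))).card : ℝ) with hN
  have hN0 : 0 < N := by
    rw [hN]
    exact_mod_cast Finset.card_pos.2 ⟨∅, Finset.mem_univ _⟩
  set K₀ := Real.log (1 + 2 * (N * Z) / κ) with hK0
  have hK0' : 0 ≤ K₀ := by
    apply Real.log_nonneg
    have : 0 ≤ 2 * (N * Z) / κ := by positivity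
    linarith
  have hexpK : N * Z * Real.exp (-K₀) ≤ κ / 2 := by
    rw [Real.exp_neg, hK0, Real.exp_log (by positivity)]
    rw [← div_eq_mul_inv, div_le_iff₀ (by positivity)]
    have : κ / 2 * (1 + 2 * (N * Z) / κ) = κ / 2 + N * Z := by field_simp
    rw [this]
    linarith
  set v₀ := K₀ + K₀ * (a + c * n * n) / c + 1 with hv0
  have hv0pos : 0 < v₀ := by positivity
  refine ⟨Z * (N * Real.exp v₀), by positivity, fun s hs => ?_⟩
  have hVpos : 0 ≤ VV a c s := Finset.sum_nonneg fun A _ => (fA_pos a c A s).le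
  have hex : ∃ A₀ ∈ (Finset.univ : Finset (Finset (Fin n))), ∀ B ∈ (Finset.univ : Finset (Finset (Fin n))),
      -(SA B s) / beta n a c B.card ≤ -(SA A₀ s) / beta n a c A₀.card :=
    Finset.exists_max_image _ _ ⟨∅, Finset.mem_univ _⟩
  obtain ⟨A₀, -, hA₀⟩ := hex
  set v := -(SA A₀ s) / beta n a c A₀.card with hv
  have hv' : ∀ B : Finset (Fin n), -(SA B s) / beta n a c B.card ≤ v := fun B =>
    hA₀ B (Finset.mem_univ _)
  have hfv : ∀ B : Finset (Fin n), fA a c B s ≤ Real.exp v := fun B =>
    Real.exp_le_exp.2 (hv' B)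
  have hgen : ∀ B : Finset (Fin n), av (fA a c B) s ≤ Z * fA a c B s := fun B =>
    av_fA_le ha hc.le hn B s
  have hav : av (VV a c) s = ∑ A : Finset (Fin n), av (fA a c A) s :=
    av_sum _ _ _
  by_cases hbig : v < v₀
  · have h1 : av (VV a c) s ≤ Z * (N * Real.exp v₀) := by
      rw [hav]
      calc ∑ A : Finset (Fin n), av (fA a c A) s ≤ ∑ A : Finset (Fin n), Z * Real.exp v₀ := by
            refine Finset.sum_le_sum fun A _ => (hgen A).trans ?_
            have : fA a c A s ≤ Real.exp v₀ := (hfv A).trans (Real.exp_le_exp.2 hbig.le)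
            gcongr
        _ = Z * (N * Real.exp v₀) := by
            rw [Finset.sum_const, nsmul_eq_mul]
            ring
    nlinarith
  · have hbig' : v₀ ≤ v := not_lt.1 hbig
    have hcv : K₀ * (a + c * n * n) < c * v := by
      have : K₀ * (a + c * n * n) < c * v₀ := by
        rw [hv0]
        have e1 : c * (K₀ + K₀ * (a + c * n * n) / c + 1)
            = c * K₀ + K₀ * (a + c * n * n) + c := by field_simp
        rw [e1]
        have : 0 ≤ c * K₀ := by positivity
        linarith
      exact this.trans_le (by gcongr)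
    have hKv : K₀ < v := by
      have : K₀ < v₀ := by
        rw [hv0]
        have : 0 ≤ K₀ * (a + c * n * n) / c := by positivity
        linarith
      linarith
    have hterm : ∀ A : Finset (Fin n), av (fA a c A) s
        ≤ (1 - κ) * fA a c A s + Z * (Real.exp (-K₀) * Real.exp v) := by
      intro A
      by_cases hA : v - K₀ ≤ -(SA A s) / beta n a c A.card
      · have hlow := near_max ha hc s v K₀ hK0' hv' A hA hcv
        have hpos : 0 < -(SA A s) / beta n a c A.card := by linarith
        have hcard0 : 0 < A.card := by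
          rw [Nat.pos_iff_ne_zero]
          intro h0
          rw [Finset.card_eq_zero] at h0
          rw [h0] at hpos
          simp [SA] at hpos
        have hcardn : A.card < n := by
          rcases lt_or_eq_of_le (card_le_n A) with h | h
          · exact h
          · exfalso
            have hAu : A = Finset.univ := by
              apply Finset.eq_univ_of_card
              rw [h, Fintype.card_fin]
            rw [hAu] at hpos
            unfold SA at hpos
            rw [hs] at hpos
            simp at hpos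
        rw [av_fA_low hn A s hlow]
        have h1 := hF A.card hcard0 hcardn
        have h2 : Fac n A.card (Real.exp (1 / beta n a c A.card)) * fA a c A s
            ≤ (1 - κ) * fA a c A s := mul_le_mul_of_nonneg_right h1 (fA_pos _ _ _ _).le
        have h3 : 0 ≤ Z * (Real.exp (-K₀) * Real.exp v) := by positivity
        linarith
      · have hA' : -(SA A s) / beta n a c A.card ≤ v - K₀ := (not_le.1 hA).le
        have h1 : fA a c A s ≤ Real.exp (-K₀) * Real.exp v := by
          rw [← Real.exp_add]
          apply Real.exp_le_exp.2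
          linarith
        have h2 : Z * fA a c A s ≤ Z * (Real.exp (-K₀) * Real.exp v) := by gcongr
        have h3 : 0 ≤ (1 - κ) * fA a c A s :=
          mul_nonneg (by linarith) (fA_pos _ _ _ _).le
        linarith [hgen A]
    have hsum : av (VV a c) s ≤ (1 - κ) * VV a c s + N * Z * Real.exp (-K₀) * Real.exp v := by
      rw [hav]
      calc ∑ A : Finset (Fin n), av (fA a c A) s
          ≤ ∑ A : Finset (Fin n), ((1 - κ) * fA a c A s + Z * (Real.exp (-K₀) * Real.exp v)) :=
            Finset.sum_le_sum fun A _ => hterm A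
        _ = _ := by
            rw [Finset.sum_add_distrib, ← Finset.mul_sum, Finset.sum_const, nsmul_eq_mul]
            unfold VV
            ring
    have hev : Real.exp v ≤ VV a c s := by
      have : fA a c A₀ s = Real.exp v := rfl
      rw [← this]
      exact Finset.single_le_sum (f := fun A => fA a c A s) (fun A _ => (fA_pos a c A s).le)
        (Finset.mem_univ A₀)
    have h4 : N * Z * Real.exp (-K₀) * Real.exp v ≤ κ / 2 * VV a c s := by
      apply mul_le_mul hexpK hev (Real.exp_pos _).le (by positivity)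
    have h5 : 0 ≤ Z * (N * Real.exp v₀) := by positivity
    linarith

/-- The Lyapunov function is integrable under the stationary law. -/
lemma VV_integrable {a c κ : ℝ} (ha : 0 < a) (hc : 0 < c) (hn : 0 < n) (hκ : 0 < κ) (hκ1 : κ ≤ 1)
    (hF : ∀ m : ℕ, 0 < m → m < n →
      Fac n m (Real.exp (1 / beta n a c m)) ≤ 1 - κ) :
    ∃ C : ℝ, 0 ≤ C ∧ ∀ π : PMF (Fin n → ℤ), IsStationary π →
      ∑' s, π s * ENNReal.ofReal (VV a c s) ≤ ENNReal.ofReal C := by
  obtain ⟨C, hC, hd⟩ := VV_drift ha hc hn hκ hκ1 hF
  have hV0 : ∀ s : Fin n → ℤ, 0 ≤ VV a c s := fun s =>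
    Finset.sum_nonneg fun A _ => (fA_pos a c A s).le
  refine ⟨2 / κ * C, by positivity, fun π hπ => ?_⟩
  have htrunc : ∀ N : ℝ, 0 ≤ N → ∑' s, π s * ENNReal.ofReal
      (if VV a c s ≤ N then κ / 2 * VV a c s else 0) ≤ ENNReal.ofReal C := by
    intro N hN
    have := drift hπ hn (fun s => min (VV a c s) N)
      (fun s => if VV a c s ≤ N then κ / 2 * VV a c s else 0) (fun _ => C) N
      (fun s => le_min (hV0 s) hN) (fun s => min_le_right _ _)
      (fun s => by
        split_ifs
        · have := hV0 s; positivity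
        · exact le_rfl)
      (fun _ => hC) (fun s hs => by
        by_cases h : VV a c s ≤ N
        · rw [if_pos h, min_eq_left h]
          have h1 : av (fun s => min (VV a c s) N) s ≤ av (VV a c) s :=
            av_mono _ _ (fun s => min_le_left _ _) s
          have h2 := hd s hs
          linarith
        · rw [if_neg h, min_eq_right (not_le.1 h).le]
          have h1 : av (fun s => min (VV a c s) N) s ≤ av (fun _ => N) s :=
            av_mono _ _ (fun s => min_le_right _ _) s
          rw [av_const hn] at h1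
          linarith)
    refine this.trans (le_of_eq ?_)
    rw [ENNReal.tsum_mul_right, π.tsum_coe, one_mul]
  have hfin : ∑' s, π s * ENNReal.ofReal (κ / 2 * VV a c s) ≤ ENNReal.ofReal C := by
    rw [ENNReal.tsum_eq_iSup_sum]
    refine iSup_le fun t => ?_
    obtain ⟨N, hN⟩ : ∃ N : ℝ, ∀ s ∈ t, VV a c s ≤ N := by
      refine ⟨∑ s ∈ t, VV a c s, fun s hs => ?_⟩
      exact Finset.single_le_sum (f := fun s => VV a c s) (fun s _ => hV0 s) hs
    have h1 := htrunc (max N 0) (le_max_right _ _)
    calc ∑ s ∈ t, π s * ENNReal.ofReal (κ / 2 * VV a c s)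
        = ∑ s ∈ t, π s * ENNReal.ofReal
          (if VV a c s ≤ max N 0 then κ / 2 * VV a c s else 0) := by
          refine Finset.sum_congr rfl fun s hs => ?_
          rw [if_pos ((hN s hs).trans (le_max_left _ _))]
      _ ≤ ∑' s, π s * ENNReal.ofReal
          (if VV a c s ≤ max N 0 then κ / 2 * VV a c s else 0) := ENNReal.sum_le_tsum _
      _ ≤ _ := h1
  have h2 : ∀ s, π s * ENNReal.ofReal (VV a c s)
      = ENNReal.ofReal (2 / κ) * (π s * ENNReal.ofReal (κ / 2 * VV a c s)) := by
    intro s
    rw [mul_left_comm, ← ENNReal.ofReal_mul (by positivity)]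
    congr 2
    field_simp
  simp only [h2]
  rw [ENNReal.tsum_mul_left, ENNReal.ofReal_mul (by positivity)]
  gcongr

end Pool.Agent.H21.TB
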