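import Pool.Agent.H21.TB.Cut

open scoped ENNReal BigOperators

namespace Pool.Agent.H21.TB

variable {n : ℕ}

/-- the tail probability `P(|s_i| > M)` -/
noncomputable def tail (π : PMF (Fin n → ℤ)) (i : Fin n) (M : ℕ) : ℝ :=
  (∑' s : Fin n → ℤ, if (M : ℤ) < |s i| then π s else 0).toReal

lemma balProb_eq (π : PMF (Fin n → ℤ)) (i : Fin n) (M : ℕ) :
    balProb π i M = 1 - tail π i M := by
  have h1 : (∑' s : Fin n → ℤ, if |s i| ≤ (M : ℤ) then π s else 0)
      + (∑' s : Fin n → ℤ, if (M : ℤ) < |s i| then π s else 0) = 1 := by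
    rw [← ENNReal.tsum_add, ← π.tsum_coe]
    refine tsum_congr fun s => ?_
    by_cases h : |s i| ≤ (M : ℤ)
    · rw [if_pos h, if_neg (not_lt.2 h), add_zero]
    · rw [if_neg h, if_pos (not_le.1 h), zero_add]
  have h2 := congrArg ENNReal.toReal h1
  rw [ENNReal.toReal_add (tsum_ite_ne_top π _) (tsum_ite_ne_top π _)] at h2
  simp only [ENNReal.toReal_one] at h2
  unfold balProb tail
  linarith

/-- `P(s_i ≤ h)` -/
noncomputable def cum (π : PMF (Fin n → ℤ)) (i : Fin n) (h : ℤ) : ℝ≥0∞ :=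
  ∑' s : Fin n → ℤ, if s i ≤ h then π s else 0

lemma cum_eq (π : PMF (Fin n → ℤ)) (i : Fin n) (h : ℤ) :
    cum π i h = ∑' k : ℕ, ∑' s : Fin n → ℤ, if s i = h - k then π s else 0 := by
  rw [ENNReal.tsum_comm]
  unfold cum
  refine tsum_congr fun s => ?_
  by_cases hs : s i ≤ h
  · rw [if_pos hs, tsum_eq_single (h - s i).toNat]
    · rw [if_pos (by omega)]
    · intro k hk
      rw [if_neg (by omega)]
  · rw [if_neg hs]
    symm
    rw [ENNReal.tsum_eq_zero]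
    intro k
    rw [if_neg (by omega)]

lemma cum_cut {π : PMF (Fin n → ℤ)} (hπ : IsStationary π) (hn : 2 ≤ n) (i : Fin n) (h : ℤ) :
    ENNReal.ofReal (((n : ℝ) - 1) / (2 * n - 1)) * cum π i h ≤ cum π i (h - 1) := by
  have hn' : (2 : ℝ) ≤ n := by exact_mod_cast hn
  have hr0 : 0 ≤ ((n : ℝ) - 1) / (2 * n - 1) := by
    apply div_nonneg <;> linarith
  rw [cum_eq, cum_eq, ← ENNReal.tsum_mul_left]
  refine ENNReal.tsum_le_tsum fun k => ?_
  have h1 := cut hπ hn i (h - k)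
  have h2 := ENNReal.ofReal_le_ofReal h1
  rw [ENNReal.ofReal_mul hr0] at h2
  unfold pr at h2
  rw [ENNReal.ofReal_toReal (tsum_ite_ne_top π _), ENNReal.ofReal_toReal (tsum_ite_ne_top π _)]
    at h2
  have e : h - (k : ℤ) - 1 = h - 1 - k := by ring
  rw [e] at h2
  exact h2

lemma cum_iter {π : PMF (Fin n → ℤ)} (hπ : IsStationary π) (hn : 2 ≤ n) (i : Fin n) (h : ℤ)
    (k : ℕ) : ENNReal.ofReal (((n : ℝ) - 1) / (2 * n - 1)) ^ k * cum π i h
      ≤ cum π i (h - k) := by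
  induction k with
  | zero => simp
  | succ k ih =>
    have h1 := cum_cut hπ hn i (h - k)
    calc ENNReal.ofReal (((n : ℝ) - 1) / (2 * n - 1)) ^ (k + 1) * cum π i h
        = ENNReal.ofReal (((n : ℝ) - 1) / (2 * n - 1)) *
          (ENNReal.ofReal (((n : ℝ) - 1) / (2 * n - 1)) ^ k * cum π i h) := by ring
      _ ≤ ENNReal.ofReal (((n : ℝ) - 1) / (2 * n - 1)) * cum π i (h - k) := by gcongr
      _ ≤ cum π i (h - k - 1) := h1
      _ = cum π i (h - (k + 1 : ℕ)) := by congr 1; push_cast; ring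

lemma cum_ne_top (π : PMF (Fin n → ℤ)) (i : Fin n) (h : ℤ) : cum π i h ≠ ⊤ :=
  tsum_ite_ne_top π _

lemma cum_le_tail (π : PMF (Fin n → ℤ)) (i : Fin n) (M : ℕ) :
    (cum π i (-(M + 1 : ℤ))).toReal ≤ tail π i M := by
  unfold cum tail
  refine ENNReal.toReal_mono (tsum_ite_ne_top π _) (ENNReal.tsum_le_tsum fun s => ?_)
  by_cases h : s i ≤ -(M + 1 : ℤ)
  · rw [if_pos h, if_pos]
    rw [abs_of_nonpos (by omega)]
    omega
  · rw [if_neg h]
    exact zero_le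

lemma one_sub_tail_le (π : PMF (Fin n → ℤ)) (i : Fin n) (K : ℕ) :
    1 - tail π i K ≤ (cum π i (K : ℤ)).toReal := by
  rw [← balProb_eq]
  unfold cum balProb
  refine ENNReal.toReal_mono (tsum_ite_ne_top π _) (ENNReal.tsum_le_tsum fun s => ?_)
  by_cases h : |s i| ≤ (K : ℤ)
  · rw [if_pos h, if_pos (le_of_abs_le h)]
  · rw [if_neg h]
    exact zero_le

lemma lower_of_tail {π : PMF (Fin n → ℤ)} (hπ : IsStationary π) (hn : 2 ≤ n) (i : Fin n)
    (K : ℕ) (M : ℕ) :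
    (((n : ℝ) - 1) / (2 * n - 1)) ^ (M + 1 + K) * (1 - tail π i K) ≤ tail π i M := by
  have hn' : (2 : ℝ) ≤ n := by exact_mod_cast hn
  have hr0 : 0 ≤ ((n : ℝ) - 1) / (2 * n - 1) := by
    apply div_nonneg <;> linarith
  have h1 := cum_iter hπ hn i (K : ℤ) (M + 1 + K)
  have e : (K : ℤ) - ((M + 1 + K : ℕ) : ℤ) = -(M + 1 : ℤ) := by push_cast; ring
  rw [e] at h1
  have h2 := ENNReal.toReal_mono (cum_ne_top π i _) h1
  rw [ENNReal.toReal_mul, ENNReal.toReal_pow, ENNReal.toReal_ofReal hr0] at h2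
  have h3 := cum_le_tail π i M
  have h4 := one_sub_tail_le π i K
  calc (((n : ℝ) - 1) / (2 * n - 1)) ^ (M + 1 + K) * (1 - tail π i K)
      ≤ (((n : ℝ) - 1) / (2 * n - 1)) ^ (M + 1 + K) * (cum π i (K : ℤ)).toReal := by gcongr
    _ ≤ _ := h2.trans h3

end Pool.Agent.H21.TB
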