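import Pool.Agent.H21.TB.Lower

open scoped ENNReal BigOperators

namespace Pool.Agent.H21.TB

variable {n : ℕ}

noncomputable def beta (n : ℕ) (a c : ℝ) (m : ℕ) : ℝ := a + c * m * ((n : ℝ) - m)

noncomputable def SA (A : Finset (Fin n)) (s : Fin n → ℤ) : ℝ := ((∑ i ∈ A, s i : ℤ) : ℝ)

noncomputable def fA (a c : ℝ) (A : Finset (Fin n)) (s : Fin n → ℤ) : ℝ :=
  Real.exp (-(SA A s) / beta n a c A.card)

noncomputable def VV (a c : ℝ) (s : Fin n → ℤ) : ℝ := ∑ A : Finset (Fin n), fA a c A s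

lemma card_le_n (A : Finset (Fin n)) : A.card ≤ n := by
  simpa using Finset.card_le_univ A

lemma beta_ge {a c : ℝ} (hc : 0 ≤ c) {m : ℕ} (hm : m ≤ n) : a ≤ beta n a c m := by
  unfold beta
  have h1 : (m : ℝ) ≤ n := by exact_mod_cast hm
  have : 0 ≤ c * m * ((n : ℝ) - m) := mul_nonneg (by positivity) (by linarith)
  linarith

lemma beta_le {a c : ℝ} (hc : 0 ≤ c) {m : ℕ} (hm : m ≤ n) :
    beta n a c m ≤ a + c * n * n := by
  unfold beta
  have h1 : (m : ℝ) ≤ n := by exact_mod_cast hm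
  have h0 : (0 : ℝ) ≤ m := by positivity
  have : c * m * ((n : ℝ) - m) ≤ c * n * n := by
    have h2 : (m : ℝ) * ((n : ℝ) - m) ≤ n * n := by nlinarith
    calc c * m * ((n : ℝ) - m) = c * (m * ((n : ℝ) - m)) := by ring
      _ ≤ c * (n * n) := by gcongr
      _ = _ := by ring
  linarith

lemma SA_step (A : Finset (Fin n)) (s : Fin n → ℤ) (ω : Draw n) :
    SA A (step s ω) = SA A s - (if ω.1 ∈ A then 1 else 0)
      + (if provider s ω.2.1 ω.2.2.1 ω.2.2.2 ∈ A then 1 else 0) := by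
  unfold SA
  simp only [step_apply]
  rw [Finset.sum_add_distrib, Finset.sum_sub_distrib]
  simp only [Finset.sum_ite_eq', Int.cast_add, Int.cast_sub, Int.cast_ite, Int.cast_one,
    Int.cast_zero]

lemma fA_pos (a c : ℝ) (A : Finset (Fin n)) (s : Fin n → ℤ) : 0 < fA a c A s :=
  Real.exp_pos _

lemma fA_step (a c : ℝ) (A : Finset (Fin n)) (s : Fin n → ℤ) (ω : Draw n) :
    fA a c A (step s ω) = fA a c A s *
      ((if ω.1 ∈ A then Real.exp (1 / beta n a c A.card) else 1)
      * (if provider s ω.2.1 ω.2.2.1 ω.2.2.2 ∈ A then (Real.exp (1 / beta n a c A.card))⁻¹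
          else 1)) := by
  unfold fA
  rw [SA_step]
  have h1 : (if ω.1 ∈ A then Real.exp (1 / beta n a c A.card) else 1)
      = Real.exp ((if ω.1 ∈ A then 1 else 0) / beta n a c A.card) := by
    split_ifs <;> simp
  have h2 : (if provider s ω.2.1 ω.2.2.1 ω.2.2.2 ∈ A then (Real.exp (1 / beta n a c A.card))⁻¹
          else 1)
      = Real.exp (-((if provider s ω.2.1 ω.2.2.1 ω.2.2.2 ∈ A then 1 else 0)
          / beta n a c A.card)) := by
    split_ifs
    · rw [Real.exp_neg]
    · simp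
  rw [h1, h2, ← Real.exp_add, ← Real.exp_add]
  congr 1
  ring

lemma av_fA_le {a c : ℝ} (ha : 0 < a) (hc : 0 ≤ c) (hn : 0 < n) (A : Finset (Fin n))
    (s : Fin n → ℤ) : av (fA a c A) s ≤ Real.exp (1 / a) * fA a c A s := by
  have hβ : 0 < beta n a c A.card := lt_of_lt_of_le ha (beta_ge hc (card_le_n A))
  have hn' : (0 : ℝ) < n := by exact_mod_cast hn
  have h3 : (0 : ℝ) < 2 * (n : ℝ) ^ 3 := by positivity
  have hz1 : 1 ≤ Real.exp (1 / beta n a c A.card) := by
    apply Real.one_le_exp; positivity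
  have hz2 : Real.exp (1 / beta n a c A.card) ≤ Real.exp (1 / a) := by
    apply Real.exp_le_exp.2
    exact one_div_le_one_div_of_le ha (beta_ge hc (card_le_n A))
  unfold av
  rw [div_le_iff₀ h3]
  have : ∑ ω : Draw n, fA a c A (step s ω) ≤ ∑ ω : Draw n, Real.exp (1 / a) * fA a c A s := by
    refine Finset.sum_le_sum fun ω _ => ?_
    rw [fA_step, mul_comm (Real.exp (1 / a))]
    refine mul_le_mul_of_nonneg_left ?_ (fA_pos _ _ _ _).le
    have e1 : (if ω.1 ∈ A then Real.exp (1 / beta n a c A.card) else 1)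
        ≤ Real.exp (1 / a) := by
      split_ifs
      · exact hz2
      · exact hz1.trans hz2
    have e2 : (if provider s ω.2.1 ω.2.2.1 ω.2.2.2 ∈ A then (Real.exp (1 / beta n a c A.card))⁻¹
          else 1) ≤ 1 := by
      split_ifs
      · exact inv_le_one_of_one_le₀ hz1
      · exact le_rfl
    have e3 : 0 ≤ (if provider s ω.2.1 ω.2.2.1 ω.2.2.2 ∈ A then
        (Real.exp (1 / beta n a c A.card))⁻¹ else 1) := by
      split_ifs
      · positivity
      · norm_num
    calc _ ≤ Real.exp (1 / a) * 1 := mul_le_mul e1 e2 e3 (Real.exp_pos _).le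
      _ = _ := mul_one _
  rw [Finset.sum_const, nsmul_eq_mul, card_draw] at this
  linarith

lemma sum_ite_mem (A : Finset (Fin n)) (x y : ℝ) :
    ∑ i : Fin n, (if i ∈ A then x else y) = A.card * x + ((n : ℝ) - A.card) * y := by
  have h1 : ∀ i : Fin n, (if i ∈ A then x else y) = y + (if i ∈ A then (x - y) else 0) := by
    intro i; split_ifs <;> ring
  simp only [h1]
  rw [Finset.sum_add_distrib, ← Finset.sum_filter]
  simp only [Finset.filter_univ_mem, Finset.sum_const, Finset.card_univ, Fintype.card_fin,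
    nsmul_eq_mul]
  ring

/-- drift factor when `A` lies strictly below its complement -/
noncomputable def Fac (n m : ℕ) (z : ℝ) : ℝ :=
  (m * z + ((n : ℝ) - m)) * (m * (n * z⁻¹) + ((n : ℝ) - m) * (m * z⁻¹ + ((n : ℝ) - m)))
    / (n : ℝ) ^ 3

lemma provider_low (A : Finset (Fin n)) (s : Fin n → ℤ)
    (hlow : ∀ x ∈ A, ∀ y, y ∉ A → s x < s y) (j k : Fin n) (b : Bool) :
    provider s j k b ∈ A ↔ (j ∈ A ∨ k ∈ A) := by
  constructor
  · intro h
    rcases provider_mem s j k b with h1 | h1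
    · left; rwa [h1] at h
    · right; rwa [h1] at h
  · intro h
    by_cases hj : j ∈ A
    · by_cases hk : k ∈ A
      · rcases provider_mem s j k b with h1 | h1 <;> rw [h1] <;> assumption
      · have := hlow j hj k hk
        unfold provider
        rw [if_pos this]
        exact hj
    · have hk : k ∈ A := by tauto
      have := hlow k hk j hj
      unfold provider
      rw [if_neg (by omega), if_pos this]
      exact hk

lemma av_fA_low {a c : ℝ} (hn : 0 < n) (A : Finset (Fin n))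
    (s : Fin n → ℤ) (hlow : ∀ x ∈ A, ∀ y, y ∉ A → s x < s y) :
    av (fA a c A) s = Fac n A.card (Real.exp (1 / beta n a c A.card)) * fA a c A s := by
  have hn' : (0 : ℝ) < n := by exact_mod_cast hn
  set z := Real.exp (1 / beta n a c A.card) with hz
  unfold av
  have h1 : ∀ ω : Draw n, fA a c A (step s ω) = fA a c A s *
      ((if ω.1 ∈ A then z else 1) * (if (ω.2.1 ∈ A ∨ ω.2.2.1 ∈ A) then z⁻¹ else 1)) := by
    intro ω
    rw [fA_step, ← hz]
    congr 2
    by_cases h : (ω.2.1 ∈ A ∨ ω.2.2.1 ∈ A)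
    · rw [if_pos h, if_pos ((provider_low A s hlow _ _ _).2 h)]
    · rw [if_neg h, if_neg (fun hh => h ((provider_low A s hlow _ _ _).1 hh))]
  simp only [h1]
  rw [← Finset.mul_sum, sum_draw (fun i => if i ∈ A then z else 1)
    (fun j k => if (j ∈ A ∨ k ∈ A) then z⁻¹ else 1)]
  have h2 : ∀ j : Fin n, ∑ k : Fin n, (if (j ∈ A ∨ k ∈ A) then z⁻¹ else 1)
      = if j ∈ A then (n : ℝ) * z⁻¹ else (A.card * z⁻¹ + ((n : ℝ) - A.card)) := by
    intro j
    by_cases hj : j ∈ A
    · simp [hj]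
    · simp only [hj, false_or, if_false]
      rw [sum_ite_mem]
      ring
  simp only [h2]
  rw [sum_ite_mem, sum_ite_mem]
  unfold Fac
  field_simp

lemma Fac_lt_one {m : ℕ} (hm0 : 0 < m) (hmn : m < n) {z : ℝ} (hz1 : 1 < z)
    (hz2 : z < (2 * n - m) / ((n : ℝ) - m)) : Fac n m z < 1 := by
  have hm : (0 : ℝ) < m := by exact_mod_cast hm0
  have hk : (0 : ℝ) < (n : ℝ) - m := by
    have : (m : ℝ) < n := by exact_mod_cast hmn
    linarith
  have hn : (0 : ℝ) < n := by linarith
  have hz0 : (0 : ℝ) < z := by linarith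
  rw [lt_div_iff₀ hk] at hz2
  unfold Fac
  rw [div_lt_one (by positivity)]
  have e1 : (m * z + ((n : ℝ) - m)) * (m * (n * z⁻¹) + ((n : ℝ) - m) * (m * z⁻¹ + ((n : ℝ) - m)))
      = ((n : ℝ) ^ 3 * z + m * ((n : ℝ) - m) * (z - 1) * (((n : ℝ) - m) * z - (2 * n - m))) / z := by
    field_simp
    ring
  rw [e1, div_lt_iff₀ hz0]
  have h1 : m * ((n : ℝ) - m) * (z - 1) * (((n : ℝ) - m) * z - (2 * n - m)) < 0 := by
    apply mul_neg_of_pos_of_neg
    · apply mul_pos (by positivity) (by linarith)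
    · linarith
  linarith

end Pool.Agent.H21.TB
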