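import Pool.Agent.H21.TB.Upper

open scoped ENNReal BigOperators Topology
open Filter

namespace Pool.Agent.H21.TB

variable {n : ℕ}

lemma rate_pos (hn : 2 ≤ n) : 0 < ((n : ℝ) - 1) / (2 * n - 1) := by
  have hn' : (2 : ℝ) ≤ n := by exact_mod_cast hn
  apply div_pos <;> linarith

lemma rate_lt_one (hn : 2 ≤ n) : ((n : ℝ) - 1) / (2 * n - 1) < 1 := by
  have hn' : (2 : ℝ) ≤ n := by exact_mod_cast hn
  rw [div_lt_one (by linarith)]
  linarith

lemma lower (hn : 2 ≤ n) :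
    ∃ c : ℝ, 0 < c ∧ ∀ π : PMF (Fin n → ℤ), IsStationary π → ∀ i : Fin n, ∀ M : ℕ,
      c * (((n : ℝ) - 1) / (2 * n - 1)) ^ M ≤ tail π i M := by
  have hr0 := rate_pos hn
  have hr1 := rate_lt_one hn
  obtain ⟨ρ, h1, h2⟩ := exists_between hr1
  obtain ⟨C, hC0, hC⟩ := upper hn ρ h1 h2
  have hρ0 : 0 < ρ := hr0.trans h1
  obtain ⟨K, hK⟩ : ∃ K : ℕ, C * ρ ^ K < 1 / 2 := by
    have := (tendsto_pow_atTop_nhds_zero_of_lt_one hρ0.le h2).const_mul C
    rw [mul_zero] at this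
    exact ((tendsto_order.1 this).2 (1 / 2) (by norm_num)).exists
  refine ⟨(((n : ℝ) - 1) / (2 * n - 1)) ^ (1 + K) * (1 / 2), by positivity, fun π hπ i M => ?_⟩
  have h3 := lower_of_tail hπ hn i K M
  have h4 := hC π hπ i K
  calc (((n : ℝ) - 1) / (2 * n - 1)) ^ (1 + K) * (1 / 2) * (((n : ℝ) - 1) / (2 * n - 1)) ^ M
      = (((n : ℝ) - 1) / (2 * n - 1)) ^ (M + 1 + K) * (1 / 2) := by ring
    _ ≤ (((n : ℝ) - 1) / (2 * n - 1)) ^ (M + 1 + K) * (1 - tail π i K) := by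
        gcongr
        linarith
    _ ≤ _ := h3

lemma rate_lt_succ (hn : 2 ≤ n) : ((n : ℝ) - 1) / (2 * n - 1)
    < (((n + 1 : ℕ) : ℝ) - 1) / (2 * ((n + 1 : ℕ) : ℝ) - 1) := by
  have hn' : (2 : ℝ) ≤ n := by exact_mod_cast hn
  push_cast
  rw [div_lt_div_iff₀ (by linarith) (by linarith)]
  nlinarith

/-- Eventual strict monotonicity, with a threshold that depends on `n` only. -/
theorem eventually_mono (hn : 2 ≤ n) :
    ∃ M₀ : ℕ, ∀ π : PMF (Fin n → ℤ), ∀ π' : PMF (Fin (n + 1) → ℤ),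
      IsStationary π → IsStationary π' → ∀ i : Fin n, ∀ i' : Fin (n + 1), ∀ M : ℕ, M₀ ≤ M →
      balProb π' i' M < balProb π i M := by
  obtain ⟨ρ, h1, h2⟩ := exists_between (rate_lt_succ hn)
  have hn1 : 2 ≤ n + 1 := by omega
  have hr0 := rate_pos hn
  have hr1 := rate_lt_one hn1
  have hR0 := rate_pos hn1
  set R := (((n + 1 : ℕ) : ℝ) - 1) / (2 * ((n + 1 : ℕ) : ℝ) - 1) with hR
  obtain ⟨C, hC0, hC⟩ := upper hn ρ h1 (h2.trans hr1)
  obtain ⟨c, hc0, hc⟩ := lower hn1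
  have hρ0 : 0 < ρ := hr0.trans h1
  have hlim : Tendsto (fun M : ℕ => C * (ρ / R) ^ M) atTop (𝓝 (C * 0)) :=
    (tendsto_pow_atTop_nhds_zero_of_lt_one (by positivity) ((div_lt_one hR0).2 h2)).const_mul C
  rw [mul_zero] at hlim
  obtain ⟨M₀, hM₀⟩ := eventually_atTop.1 ((tendsto_order.1 hlim).2 c hc0)
  refine ⟨M₀, fun π π' hπ hπ' i i' M hM => ?_⟩
  rw [balProb_eq, balProb_eq]
  have e1 := hC π hπ i M
  have e2 := hc π' hπ' i' M
  rw [← hR] at e2
  have e3 := hM₀ M hM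
  have e4 : C * ρ ^ M < c * R ^ M := by
    rw [div_pow, ← mul_div_assoc, div_lt_iff₀ (by positivity)] at e3
    exact e3
  linarith

lemma tendsto_const_rpow {c : ℝ} (hc : 0 < c) :
    Tendsto (fun M : ℕ => c ^ (1 / (M : ℝ))) atTop (𝓝 1) := by
  have h1 : Tendsto (fun M : ℕ => (1 : ℝ) / (M : ℝ)) atTop (𝓝 0) :=
    tendsto_one_div_atTop_nhds_zero_nat
  have h2 := (Real.continuousAt_const_rpow (a := c) (b := 0) hc.ne').tendsto.comp h1
  rw [Real.rpow_zero] at h2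
  exact h2

lemma mul_pow_rpow {c r : ℝ} (hc : 0 < c) (hr : 0 < r) (M : ℕ) (hM : M ≠ 0) :
    (c * r ^ M) ^ (1 / (M : ℝ)) = c ^ (1 / (M : ℝ)) * r := by
  rw [Real.mul_rpow hc.le (by positivity), ← Real.rpow_natCast r M, ← Real.rpow_mul hr.le]
  have : (M : ℝ) ≠ 0 := by exact_mod_cast hM
  rw [mul_one_div_cancel this, Real.rpow_one]

/-- The exact exponential rate. -/
theorem tendsto_rate (hn : 2 ≤ n) (π : PMF (Fin n → ℤ)) (hπ : IsStationary π) (i : Fin n) :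
    Tendsto (fun M : ℕ => (1 - balProb π i M) ^ (1 / (M : ℝ))) atTop
      (𝓝 (((n : ℝ) - 1) / (2 * n - 1))) := by
  have hr0 := rate_pos hn
  have hr1 := rate_lt_one hn
  set r := ((n : ℝ) - 1) / (2 * n - 1) with hr
  have htail : ∀ M : ℕ, 1 - balProb π i M = tail π i M := fun M => by
    rw [balProb_eq]; ring
  simp only [htail]
  obtain ⟨c, hc0, hc⟩ := lower hn
  rw [tendsto_order]
  constructor
  · intro b hb
    have h1 : Tendsto (fun M : ℕ => c ^ (1 / (M : ℝ)) * r) atTop (𝓝 (1 * r)) :=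
      (tendsto_const_rpow hc0).mul_const r
    rw [one_mul] at h1
    filter_upwards [(tendsto_order.1 h1).1 b hb, eventually_ge_atTop 1] with M h2 h3
    refine h2.trans_le ?_
    rw [← mul_pow_rpow hc0 hr0 M (by omega)]
    exact Real.rpow_le_rpow (by positivity) (hc π hπ i M) (by positivity)
  · intro b hb
    obtain ⟨ρ, h1, h2⟩ := exists_between (lt_min hb hr1)
    have h2a : ρ < b := h2.trans_le (min_le_left _ _)
    have h2b : ρ < 1 := h2.trans_le (min_le_right _ _)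
    have hρ0 : 0 < ρ := hr0.trans h1
    obtain ⟨C, hC0, hC⟩ := upper hn ρ h1 h2b
    have h3 : Tendsto (fun M : ℕ => C ^ (1 / (M : ℝ)) * ρ) atTop (𝓝 (1 * ρ)) :=
      (tendsto_const_rpow hC0).mul_const ρ
    rw [one_mul] at h3
    filter_upwards [(tendsto_order.1 h3).2 b h2a, eventually_ge_atTop 1] with M h4 h5
    refine lt_of_le_of_lt ?_ h4
    rw [← mul_pow_rpow hC0 hρ0 M (by omega)]
    exact Real.rpow_le_rpow ENNReal.toReal_nonneg (hC π hπ i M) (by positivity)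

end Pool.Agent.H21.TB
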