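import Pool.Agent.H21.TB.Drift

open scoped ENNReal BigOperators

namespace Pool.Agent.H21.TB

variable {n : ℕ}

lemma exists_kappa (t : Finset ℕ) (g : ℕ → ℝ) (hg : ∀ m ∈ t, g m < 1) :
    ∃ κ : ℝ, 0 < κ ∧ κ ≤ 1 ∧ ∀ m ∈ t, g m ≤ 1 - κ := by
  induction t using Finset.induction_on with
  | empty => exact ⟨1, one_pos, le_rfl, by simp⟩
  | insert x t hx ih =>
    obtain ⟨κ, h1, h2, h3⟩ := ih (fun m hm => hg m (Finset.mem_insert_of_mem hm))
    have h4 := hg x (Finset.mem_insert_self _ _)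
    refine ⟨min κ (1 - g x), lt_min h1 (by linarith), (min_le_left _ _).trans h2,
      fun m hm => ?_⟩
    rcases Finset.mem_insert.1 hm with h | h
    · rw [h]
      have := min_le_right κ (1 - g x)
      linarith
    · have := min_le_left κ (1 - g x)
      have := h3 m h
      linarith

/-- The Lyapunov function is at least `exp (M / α)` when `|s_i| > M`. -/
lemma VV_ge {a c : ℝ} (ha : 0 < a) (hc : 0 < c) (hn : 2 ≤ n) (i : Fin n) (M : ℕ)
    (s : Fin n → ℤ) (hs : ∑ k, s k = 0) (hM : (M : ℤ) < |s i|) :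
    Real.exp (M / (a + c * ((n : ℝ) - 1))) ≤ VV a c s := by
  have hn' : (2 : ℝ) ≤ n := by exact_mod_cast hn
  have hα : 0 < a + c * ((n : ℝ) - 1) := by
    have : 0 ≤ c * ((n : ℝ) - 1) := mul_nonneg hc.le (by linarith)
    linarith
  have hM' : (M : ℝ) ≤ |(s i : ℝ)| := by
    have : (M : ℝ) < |(s i : ℝ)| := by
      rw [← Int.cast_abs]
      exact_mod_cast hM
    exact this.le
  have hsingle : ∀ A : Finset (Fin n), fA a c A s ≤ VV a c s := fun A =>
    Finset.single_le_sum (f := fun A => fA a c A s) (fun A _ => (fA_pos a c A s).le)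
        (Finset.mem_univ A)
  rcases le_total (s i : ℝ) 0 with h | h
  · rw [abs_of_nonpos h] at hM'
    refine le_trans ?_ (hsingle {i})
    unfold fA
    have e1 : SA {i} s = s i := by simp [SA]
    have e2 : beta n a c ({i} : Finset (Fin n)).card = a + c * ((n : ℝ) - 1) := by
      rw [Finset.card_singleton]
      unfold beta
      push_cast
      ring
    rw [e1, e2]
    apply Real.exp_le_exp.2
    gcongr
  · rw [abs_of_nonneg h] at hM'
    refine le_trans ?_ (hsingle {i}ᶜ)
    unfold fA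
    have e1 : SA ({i}ᶜ : Finset (Fin n)) s = -(s i : ℝ) := by
      unfold SA
      have h1 : ∑ k ∈ ({i} : Finset (Fin n)), s k + ∑ k ∈ ({i}ᶜ : Finset (Fin n)), s k = 0 := by
        rw [Finset.sum_add_sum_compl, hs]
      rw [Finset.sum_singleton] at h1
      have h2 : ∑ k ∈ ({i}ᶜ : Finset (Fin n)), s k = -(s i) := by linarith
      rw [h2]
      push_cast
      ring
    have e2 : beta n a c ({i}ᶜ : Finset (Fin n)).card = a + c * ((n : ℝ) - 1) := by
      rw [Finset.card_compl, Finset.card_singleton, Fintype.card_fin]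
      unfold beta
      rw [Nat.cast_sub (by omega)]
      push_cast
      ring
    rw [e1, e2, neg_neg]
    apply Real.exp_le_exp.2
    gcongr

lemma upper (hn : 2 ≤ n) (ρ : ℝ)
    (hρ1 : ((n : ℝ) - 1) / (2 * n - 1) < ρ) (hρ2 : ρ < 1) :
    ∃ C : ℝ, 0 < C ∧ ∀ π : PMF (Fin n → ℤ), IsStationary π → ∀ i : Fin n, ∀ M : ℕ,
      tail π i M ≤ C * ρ ^ M := by
  have hn' : (2 : ℝ) ≤ n := by exact_mod_cast hn
  have hn1 : (0 : ℝ) < (n : ℝ) - 1 := by linarith
  have hn2 : (0 : ℝ) < 2 * (n : ℝ) - 1 := by linarith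
  have hr0 : 0 < ((n : ℝ) - 1) / (2 * n - 1) := by positivity
  have hρ0 : 0 < ρ := hr0.trans hρ1
  set Lr := Real.log ((2 * (n : ℝ) - 1) / ((n : ℝ) - 1)) with hLr
  set Lρ := -Real.log ρ with hLρ
  have hLρ0 : 0 < Lρ := by
    rw [hLρ]
    have := Real.log_neg hρ0 hρ2
    linarith
  have hLL : Lρ < Lr := by
    rw [hLρ, hLr, ← Real.log_inv]
    apply Real.log_lt_log (by positivity)
    rw [inv_lt_comm₀ hρ0 (by positivity), inv_div]
    exact hρ1
  have hLr0 : 0 < Lr := hLρ0.trans hLL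
  have hαα : 1 / Lr < 1 / Lρ := one_div_lt_one_div_of_lt hLρ0 hLL
  set c := (1 / Lρ - 1 / Lr) / (2 * ((n : ℝ) - 1)) with hc
  have hc0 : 0 < c := div_pos (by linarith) (by linarith)
  set a := (1 / Lρ + 1 / Lr) / 2 with ha
  have haLr : 1 / Lr < a := by rw [ha]; linarith
  have ha0 : 0 < a := lt_trans (by positivity) haLr
  have hacn : a + c * ((n : ℝ) - 1) = 1 / Lρ := by
    rw [ha, hc]
    field_simp
    ring
  have hFac : ∀ m ∈ Finset.Ioo 0 n, Fac n m (Real.exp (1 / beta n a c m)) < 1 := by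
    intro m hm
    obtain ⟨hm0, hmn⟩ := Finset.mem_Ioo.1 hm
    have hβ : a ≤ beta n a c m := beta_ge hc0.le hmn.le
    have hβ0 : 0 < beta n a c m := ha0.trans_le hβ
    apply Fac_lt_one hm0 hmn
    · apply Real.one_lt_exp_iff.2
      positivity
    · have hm1 : (1 : ℝ) ≤ m := by exact_mod_cast hm0
      have hmn' : (0 : ℝ) < (n : ℝ) - m := by
        have : (m : ℝ) < n := by exact_mod_cast hmn
        linarith
      have h1 : Real.exp (1 / beta n a c m) < Real.exp Lr := by
        apply Real.exp_lt_exp.2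
        rw [div_lt_iff₀ hβ0]
        have : 1 / Lr < beta n a c m := haLr.trans_le hβ
        rw [div_lt_iff₀ hLr0] at this
        linarith
      have h2 : Real.exp Lr = (2 * (n : ℝ) - 1) / ((n : ℝ) - 1) := by
        rw [hLr, Real.exp_log (by positivity)]
      rw [h2] at h1
      refine h1.trans_le ?_
      rw [div_le_div_iff₀ hn1 hmn']
      nlinarith
  obtain ⟨κ, hκ0, hκ1, hκ⟩ := exists_kappa _ _ hFac
  obtain ⟨C, hC0, hC⟩ := VV_integrable ha0 hc0 (by omega : 0 < n) hκ0 hκ1
    (fun m h1 h2 => hκ m (Finset.mem_Ioo.2 ⟨h1, h2⟩))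
  refine ⟨C + 1, by linarith, fun π hπ i M => ?_⟩
  have hexp : ρ ^ M = Real.exp (-(M / (a + c * ((n : ℝ) - 1)))) := by
    rw [hacn]
    have : -((M : ℝ) / (1 / Lρ)) = M * Real.log ρ := by
      rw [hLρ]
      field_simp
    rw [this, mul_comm, Real.exp_mul, Real.exp_log hρ0, Real.rpow_natCast]
  have hle : ∑' s : Fin n → ℤ, (if (M : ℤ) < |s i| then π s else 0)
      ≤ ENNReal.ofReal (C * ρ ^ M) := by
    calc ∑' s : Fin n → ℤ, (if (M : ℤ) < |s i| then π s else 0)
        ≤ ∑' s : Fin n → ℤ, (π s * ENNReal.ofReal (VV a c s)) * ENNReal.ofReal (ρ ^ M) := by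
          refine ENNReal.tsum_le_tsum fun s => ?_
          by_cases h0 : π s = 0
          · simp [h0]
          by_cases hM : (M : ℤ) < |s i|
          · rw [if_pos hM]
            have h1 := VV_ge ha0 hc0 hn i M s (hπ.1 s h0) hM
            have h2 : 1 ≤ VV a c s * ρ ^ M := by
              rw [hexp]
              calc (1 : ℝ) = Real.exp (M / (a + c * ((n : ℝ) - 1)))
                    * Real.exp (-(M / (a + c * ((n : ℝ) - 1)))) := by
                    rw [← Real.exp_add]; simp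
                _ ≤ _ := by gcongr
            have hV0 : 0 ≤ VV a c s := Finset.sum_nonneg fun A _ => (fA_pos a c A s).le
            rw [mul_assoc, ← ENNReal.ofReal_mul hV0]
            calc π s = π s * ENNReal.ofReal 1 := by simp
              _ ≤ _ := mul_le_mul' le_rfl (ENNReal.ofReal_le_ofReal h2)
          · rw [if_neg hM]
            exact zero_le
      _ = (∑' s : Fin n → ℤ, (π s * ENNReal.ofReal (VV a c s))) * ENNReal.ofReal (ρ ^ M) := by
          rw [ENNReal.tsum_mul_right]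
      _ ≤ ENNReal.ofReal C * ENNReal.ofReal (ρ ^ M) := by
          gcongr
          exact hC π hπ
      _ = _ := by rw [← ENNReal.ofReal_mul hC0]
  have h5 := ENNReal.toReal_mono ENNReal.ofReal_ne_top hle
  rw [ENNReal.toReal_ofReal (by positivity)] at h5
  unfold tail
  refine h5.trans ?_
  have : 0 ≤ ρ ^ M := by positivity
  nlinarith

end Pool.Agent.H21.TB
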